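import Pool.Agent.W99.Tw.Large
import Pool.Agent.H119R2.Kp.D

set_option autoImplicit false

/-!
# Coverings by balls and by sets of bounded diameter; properties that ignore the edges between twins

A set `B` of vertices of `G` is a set of twins if all its members have the same neighbours. Let `P` be
a monotone isomorphism-invariant property of graphs on `n` vertices which does not distinguish `G` from
the graph which arises by joining all pairs of `B`, for each set `B` of twins which are not isolated.
(All properties which depend only on the numbers `max (d(u, v), 2)`, `u ≠ v`, have this property.) Let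
`n` be a sum of powers of a prime `p`, with at most one summand `1`. If `P` holds for the disjoint union
of complete graphs whose orders are these summands, but fails if the edges of one of these complete
graphs are removed, then `P` is evasive.

It follows that for every `2 ≤ r ≤ ∞` and all `n`, `k` with `s(n) ≤ k < n`, where `s(n) ≤ 1 + log₂ n` is
the number of digits `1` of `n` in base two, it is evasive to decide whether the vertices of a graph on
`n` vertices are covered by `k` balls of radius `r` (distance `r`-domination number at most `k`, or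
`k`-center problem with radius `r`), and whether they can be partitioned into `k` sets such that any
two vertices in the same set have distance at most `r`.  The same is true if `n` is a sum of `k`
powers of a prime, at most one of them being `1`.  (For `r = 1` see `DominationNumber`; for balls of
radius `1` all `1 ≤ k < n` are possible.)

Proof.  The group is generated by the translations of the parts, which are regarded as additive groups
of fields, and by one permutation which multiplies every part by a generator of the
multiplicative group of its field.  If the property is not evasive, then the signed sum of its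
values over the invariant graphs vanishes (Kahn, Saks and Sturtevant).  If two parts are joined, then
one of them is nontrivial and the edges inside this part do not matter, so these contributions
cancel.  Among the disjoint unions of complete and empty parts only the one all of whose parts are
complete has the property.  A decomposition of `n` into `k` powers of two arises from the digits by
halving; if `2 k > n + 1`, all graphs without isolated vertices have the property, and the
cyclic group suffices.
-/

namespace Pool.Agent.Results.MP_257582_lc.BallCoverings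

open Pool.Agent.H119R2.Kp (GP)

/-- Every decision strategy `σ` (the next pair to be queried depends only on the answers to the
queries made so far) needs all `n.choose 2` queries: there are two graphs that agree on the first
`n.choose 2 - 1` queried pairs, one with and one without `P`. -/
def Evasive {n : ℕ} (P : SimpleGraph (Fin n) → Prop) : Prop :=
  ∀ σ : Finset (Sym2 (Fin n)) → SimpleGraph (Fin n) → Sym2 (Fin n),
    (∀ (Q : Finset (Sym2 (Fin n))) (G H : SimpleGraph (Fin n)),
        (∀ e ∈ Q, (e ∈ G.edgeSet ↔ e ∈ H.edgeSet)) → σ Q G = σ Q H) →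
    ∃ G H : SimpleGraph (Fin n),
      (∀ e ∈ (fun Q : Finset (Sym2 (Fin n)) => insert (σ Q G) Q)^[n.choose 2 - 1]
            (∅ : Finset (Sym2 (Fin n))),
          (e ∈ G.edgeSet ↔ e ∈ H.edgeSet)) ∧ P G ∧ ¬ P H

/-- the complete graph on the set `B` -/
def Clique {n : ℕ} (B : Set (Fin n)) : SimpleGraph (Fin n) where
  Adj u v := u ≠ v ∧ u ∈ B ∧ v ∈ B
  symm := ⟨fun _ _ h => ⟨h.1.symm, h.2.2, h.2.1⟩⟩
  loopless := ⟨fun _ h => h.1 rfl⟩

/-- `P` does not distinguish a set `B` of twins (vertices with the same neighbours), which are not
isolated, from a clique with the same outer neighbours. -/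
def IgnoresTwins {n : ℕ} (P : SimpleGraph (Fin n) → Prop) : Prop :=
  ∀ (G : SimpleGraph (Fin n)) (B : Set (Fin n)),
    (∀ u ∈ B, ∀ v ∈ B, ∀ w, G.Adj u w → G.Adj v w) → (∃ u ∈ B, ∃ w, G.Adj u w) →
    P (G ⊔ Clique B) → P G

/-- the disjoint union of complete graphs on the fibres of `π` over the elements of `S`; the other
vertices are isolated -/
def Cliques {n : ℕ} {ι : Type} (π : Fin n → ι) (S : Set ι) : SimpleGraph (Fin n) where
  Adj u v := u ≠ v ∧ π u = π v ∧ π u ∈ S
  symm := ⟨fun _ _ h => ⟨h.1.symm, h.2.1.symm, h.2.1 ▸ h.2.2⟩⟩
  loopless := ⟨fun _ h => h.1 rfl⟩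

/-- `u` and `v` have distance at most `r`. -/
def Near {n : ℕ} (G : SimpleGraph (Fin n)) (r : ℕ∞) (u v : Fin n) : Prop :=
  ∃ p : G.Walk u v, (p.length : ℕ∞) ≤ r

/-- The vertices are covered by (at most) `k` balls of radius `r`. -/
def Balls {n : ℕ} (r : ℕ∞) (k : ℕ) (G : SimpleGraph (Fin n)) : Prop :=
  ∃ D : Finset (Fin n), D.card ≤ k ∧ ∀ v, ∃ w ∈ D, Near G r w v

/-- The vertices can be coloured with `k` colours such that any two vertices of the same colour have
distance at most `r`. -/
def Colours {n : ℕ} (r : ℕ∞) (k : ℕ) (G : SimpleGraph (Fin n)) : Prop :=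
  ∃ f : Fin n → Fin k, ∀ u v, f u = f v → Near G r u v

/-- from a nonevasive property to the library -/
theorem evasive_of {n : ℕ} (hn : 2 ≤ n) {P : SimpleGraph (Fin n) → Prop}
    (hmono : ∀ G H : SimpleGraph (Fin n), G ≤ H → P G → P H)
    (hiso : ∀ (σ : Fin n ≃ Fin n) (G : SimpleGraph (Fin n)), P G → P (G.map σ.toEmbedding))
    (h : n.choose 2 - 1 < n.choose 2 → ¬ GP n (n.choose 2 - 1) P) : Evasive P := by
  intro σ hσ
  by_contra hcon
  have hdec : Pool.Agent.H119R2.Kp.Dec (n.choose 2 - 1)
      (fun S : Finset (Pool.Agent.H98R2.Ev.EV (Fin n)) => P (Pool.Agent.H98R2.Ev.toG S)) := by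
    refine Pool.Agent.H119R2.Kp.dec_of_strategy _ P σ hσ fun G H hGH hPG => ?_
    by_contra hPH
    exact hcon ⟨G, H, hGH, hPG, hPH⟩
  have hch : 0 < n.choose 2 := Nat.choose_pos hn
  exact h (by omega) ⟨hmono, hiso, hdec⟩

/-- **Properties which ignore the edges between twins; coverings by balls and by sets of bounded
diameter.** -/
theorem result :
    -- the criterion
    (∀ (n p : ℕ) (ι : Type) [Fintype ι] (π : Fin n → ι) (a : ι → ℕ), p.Prime → 2 ≤ n →
      (∀ i, {x | π x = i}.ncard = p ^ a i) → (∀ i j, a i = 0 → a j = 0 → i = j) →
      ∀ P : SimpleGraph (Fin n) → Prop,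
      (∀ G H : SimpleGraph (Fin n), G ≤ H → P G → P H) →
      (∀ (σ : Fin n ≃ Fin n) (G : SimpleGraph (Fin n)), P G → P (G.map σ.toEmbedding)) →
      IgnoresTwins P → P (Cliques π Set.univ) → (∀ i, a i ≠ 0 → ¬ P (Cliques π {i}ᶜ)) →
      Evasive P) ∧
    -- `n` is a sum of `k` powers of a prime, at most one of them being `1`
    (∀ (n k p : ℕ) (r : ℕ∞) (a : Fin k → ℕ), p.Prime → 2 ≤ r → k < n → ∑ i, p ^ a i = n →
      (∀ i j, a i = 0 → a j = 0 → i = j) →
      Evasive (fun G : SimpleGraph (Fin n) => Balls r k G) ∧
      Evasive (fun G : SimpleGraph (Fin n) => Colours r k G)) ∧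
    -- all `n` and `k` with `s(n) ≤ k < n`
    (∀ (n k : ℕ) (r : ℕ∞), 2 ≤ r → (Nat.digits 2 n).sum ≤ k → k < n →
      Evasive (fun G : SimpleGraph (Fin n) => Balls r k G) ∧
      Evasive (fun G : SimpleGraph (Fin n) => Colours r k G)) := by
  classical
  refine ⟨?_, ?_, ?_⟩
  · intro n p ι _ π a hp hn hcard ha P hmono hiso htw hX hXi
    have : Fact p.Prime := ⟨hp⟩
    refine evasive_of hn hmono hiso fun hq hP => ?_
    refine Pool.Agent.W99.Tw.crit (p := p) π a (fun i => ?_) ha hP hq htw hX hXi
    rw [← hcard i, Set.ncard_eq_toFinset_card', Set.toFinset_card]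
    rfl
  · intro n k p r a hp hr hkn hsum ha
    have : Fact p.Prime := ⟨hp⟩
    have hn : 2 ≤ n := by
      by_contra hcon
      have h1 : k = 0 := by omega
      subst h1
      simp at hsum
      omega
    constructor
    · exact evasive_of hn (fun G H => Pool.Agent.W99.Tw.CovB.mono)
        (fun σ G => Pool.Agent.W99.Tw.CovB.map σ G) fun hq =>
        (Pool.Agent.W99.Tw.cover_rep (p := p) hr hkn a (Fintype.card_fin k) hsum ha hq).1
    · exact evasive_of hn (fun G H => Pool.Agent.W99.Tw.CovD.mono)
        (fun σ G => Pool.Agent.W99.Tw.CovD.map σ G) fun hq =>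
        (Pool.Agent.W99.Tw.cover_rep (p := p) hr hkn a (Fintype.card_fin k) hsum ha hq).2
  · intro n k r hr hk hkn
    have hn : 2 ≤ n := by
      by_contra hcon
      have h1 : k = 0 := by omega
      have h2 : n = 1 := by omega
      subst h1 h2
      simp at hk
    constructor
    · exact evasive_of hn (fun G H => Pool.Agent.W99.Tw.CovB.mono)
        (fun σ G => Pool.Agent.W99.Tw.CovB.map σ G) fun hq =>
        (Pool.Agent.W99.Tw.cover_all hr hkn hk hq).1
    · exact evasive_of hn (fun G H => Pool.Agent.W99.Tw.CovD.mono)
        (fun σ G => Pool.Agent.W99.Tw.CovD.map σ G) fun hq =>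
        (Pool.Agent.W99.Tw.cover_all hr hkn hk hq).2

end Pool.Agent.Results.MP_257582_lc.BallCoverings
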